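import Mathlib
import Pool.Agent.N754.LT.Cur
import Pool.Agent.N754.LT.Str2

/-!
Rational functions of independent units: clearing denominators, and descent to a sublattice of
exponents.
-/

set_option autoImplicit false
set_option linter.unusedSectionVars false

open Finset MvPolynomial Filter

namespace Pool.Agent.H21bl.QS

open Pool.Agent.N754.LT
open Pool.Agent.H159R3.Exp (Laur)

variable {k B : Type} [Field k] [CommRing B] [IsDomain B] [Algebra k B] {n r : ℕ}

/-- Laurent monomials -/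
noncomputable def mz (w : Fin r → Bˣ) (c : Fin r → ℤ) : Bˣ := ∏ j, w j ^ c j

theorem mz_add (w : Fin r → Bˣ) (c d : Fin r → ℤ) : mz w (c + d) = mz w c * mz w d := by
  unfold mz
  rw [← Finset.prod_mul_distrib]
  exact Finset.prod_congr rfl fun j _ => by rw [Pi.add_apply, zpow_add]

theorem mz_zero (w : Fin r → Bˣ) : mz w 0 = 1 := by
  unfold mz
  simp

/-- the homomorphism of the exponents -/
noncomputable def mzA (w : Fin r → Bˣ) : (Fin r → ℤ) →+ Additive Bˣ where
  toFun c := Additive.ofMul (mz w c)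
  map_zero' := by rw [mz_zero]; rfl
  map_add' c d := by rw [mz_add]; rfl

theorem mz_comp {r' : ℕ} (w : Fin r → Bˣ) (v : Fin r' → Fin r → ℤ) (c : Fin r' → ℤ) :
    mz (fun i => mz w (v i)) c = mz w (∑ i, c i • v i) := by
  have h1 : mzA w (∑ i, c i • v i) = ∑ i, c i • mzA w (v i) := by
    rw [map_sum]
    exact Finset.sum_congr rfl fun i _ => map_zsmul _ _ _
  have h2 : Additive.ofMul (mz (fun i => mz w (v i)) c) = ∑ i, c i • mzA w (v i) := by
    unfold mz
    rw [ofMul_prod_zpow]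
    rfl
  have h3 : Additive.ofMul (mz (fun i => mz w (v i)) c) = Additive.ofMul (mz w (∑ i, c i • v i)) :=
    h2.trans h1.symm
  exact Additive.ofMul.injective h3

theorem mz_nat (w : Fin r → Bˣ) (b : Fin r → ℕ) :
    ((mz w (fun j => (b j : ℤ)) : Bˣ) : B) = ∏ j, (w j : B) ^ b j := by
  unfold mz
  rw [Units.coe_prod]
  exact Finset.prod_congr rfl fun j _ => by rw [zpow_natCast, Units.val_pow_eq_pow_val]

/-- polynomials as sums of monomials -/
theorem aeval_eq_sum (w : Fin r → Bˣ) (P : MvPolynomial (Fin r) k) :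
    aeval (fun j => (w j : B)) P =
      ∑ b ∈ P.support, coeff b P • ((mz w (fun j => (b j : ℤ)) : Bˣ) : B) := by
  rw [MvPolynomial.aeval_def, MvPolynomial.eval₂_eq']
  refine Finset.sum_congr rfl fun b _ => ?_
  rw [mz_nat, Algebra.smul_def]

variable (k)

/-- the span of the Laurent monomials -/
def LS (w : Fin r → Bˣ) : Submodule k B :=
  Submodule.span k (Set.range fun c : Fin r → ℤ => ((mz w c : Bˣ) : B))

variable {k}

theorem mz_mem (w : Fin r → Bˣ) (c : Fin r → ℤ) : ((mz w c : Bˣ) : B) ∈ LS k w :=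
  Submodule.subset_span ⟨c, rfl⟩

theorem exists_clear (w : Fin r → Bˣ) {x : B} (hx : x ∈ LS k w) :
    ∃ (m : Fin r →₀ ℕ) (P : MvPolynomial (Fin r) k),
      ((mz w (fun j => (m j : ℤ)) : Bˣ) : B) * x = aeval (fun j => (w j : B)) P := by
  classical
  have hmon : ∀ (m : Fin r →₀ ℕ) (a : k), aeval (fun j => (w j : B)) (monomial m a) =
      a • ((mz w (fun j => (m j : ℤ)) : Bˣ) : B) := by
    intro m a
    rw [aeval_monomial, mz_nat, Finsupp.prod_fintype _ _ (fun _ => pow_zero _), Algebra.smul_def]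
  unfold LS at hx
  refine Submodule.span_induction ?_ ?_ ?_ ?_ hx
  · rintro _ ⟨c, rfl⟩
    refine ⟨Finsupp.equivFunOnFinite.symm fun j => (-c j).toNat,
      monomial (Finsupp.equivFunOnFinite.symm fun j => (c j).toNat) 1, ?_⟩
    rw [hmon, one_smul, ← Units.val_mul, ← mz_add]
    congr 2
    funext j
    simp only [Pi.add_apply, Finsupp.equivFunOnFinite_symm_apply_apply]
    omega
  · exact ⟨0, 0, by rw [mul_zero, map_zero]⟩
  · rintro x y _ _ ⟨m, P, h⟩ ⟨m', P', h'⟩
    refine ⟨m + m', monomial m' 1 * P + monomial m 1 * P', ?_⟩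
    rw [map_add, map_mul, map_mul, hmon, hmon, ← h, ← h', one_smul, one_smul]
    have e : (fun j => (((m + m') j : ℕ) : ℤ)) = (fun j => (m j : ℤ)) + fun j => (m' j : ℤ) := by
      funext j
      simp
    rw [e, mz_add, Units.val_mul]
    ring
  · rintro a x _ ⟨m, P, h⟩
    refine ⟨m, a • P, ?_⟩
    rw [map_smul, ← h, mul_smul_comm]

theorem exists_frac (w : Fin r → Bˣ) {a b y : B} (ha : a ∈ LS k w) (hb : b ∈ LS k w) (hb0 : b ≠ 0)
    (h : b * y = a) : ∃ p q : MvPolynomial (Fin r) k, IsRelPrime q p ∧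
      aeval (fun j => (w j : B)) q ≠ 0 ∧
      aeval (fun j => (w j : B)) q * y = aeval (fun j => (w j : B)) p := by
  classical
  obtain ⟨m1, P1, h1⟩ := exists_clear w ha
  obtain ⟨m2, P2, h2⟩ := exists_clear w hb
  set φ : MvPolynomial (Fin r) k →ₐ[k] B := aeval fun j => (w j : B) with hφ
  set X1 : B := ((mz w (fun j => (m1 j : ℤ)) : Bˣ) : B) with hX1
  set X2 : B := ((mz w (fun j => (m2 j : ℤ)) : Bˣ) : B) with hX2
  have hX10 : X1 ≠ 0 := Units.ne_zero _
  have hX20 : X2 ≠ 0 := Units.ne_zero _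
  have hmon : ∀ m : Fin r →₀ ℕ, φ (monomial m 1) = ((mz w (fun j => (m j : ℤ)) : Bˣ) : B) := by
    intro m
    rw [hφ, aeval_monomial, mz_nat, Finsupp.prod_fintype _ _ (fun _ => pow_zero _), map_one,
      one_mul]
  let q0 : MvPolynomial (Fin r) k := monomial m1 1 * P2
  let p0 : MvPolynomial (Fin r) k := monomial m2 1 * P1
  have hq0 : φ q0 = X1 * (X2 * b) := by
    simp only [q0]
    rw [map_mul, hmon, ← h2]
  have hp0 : φ p0 = X2 * (X1 * a) := by
    simp only [p0]
    rw [map_mul, hmon, ← h1]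
  have hq00 : φ q0 ≠ 0 := by
    rw [hq0]
    exact mul_ne_zero hX10 (mul_ne_zero hX20 hb0)
  have hq0' : q0 ≠ 0 := fun h0 => hq00 (by rw [h0, map_zero])
  obtain ⟨q, p, c, hrel, hq, hp⟩ := UniqueFactorizationMonoid.exists_reduced_factors q0 hq0' p0
  have hc0 : φ c ≠ 0 := by
    intro h0
    apply hq00
    rw [← hq, map_mul, h0, zero_mul]
  refine ⟨p, q, hrel, ?_, ?_⟩
  · intro h0
    apply hq00
    rw [← hq, map_mul]
    have h0' : φ q = 0 := h0
    rw [h0', mul_zero]
  · apply mul_left_cancel₀ hc0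
    show φ c * (φ q * y) = φ c * φ p
    rw [← mul_assoc, ← map_mul, ← map_mul, hq, hp, hq0, hp0, ← h]
    ring

variable (k)

/-- the coordinates are rational functions of `r` independent units -/
def RatIn (𝒲 : Subgroup Bˣ) (y : Fin n → B) (r : ℕ) : Prop :=
  ∃ w : Fin r → Bˣ, (∀ j, w j ∈ 𝒲) ∧
    (∀ b : Fin r → ℤ, (∃ c : k, ((mz w b : Bˣ) : B) = algebraMap k B c) → b = 0) ∧
    ∀ i, ∃ a ∈ LS k w, ∃ b ∈ LS k w, b ≠ 0 ∧ b * y i = a

variable {k}

theorem descent (𝒲 : Subgroup Bˣ) (w : Fin r → Bˣ) (hw𝒲 : ∀ j, w j ∈ 𝒲)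
    (hind : ∀ b : Fin r → ℤ, (∃ c : k, ((mz w b : Bˣ) : B) = algebraMap k B c) → b = 0)
    (L : Submodule ℤ (Fin r → ℤ))
    (hsat : ∀ (m : ℤ) (b : Fin r → ℤ), m ≠ 0 → m • b ∈ L → b ∈ L) (a0 : Fin r → ℤ) (ha0 : a0 ∉ L)
    (y : Fin n → B) (p q : Fin n → MvPolynomial (Fin r) k)
    (hq : ∀ i, aeval (fun j => (w j : B)) (q i) ≠ 0)
    (hqp : ∀ i, aeval (fun j => (w j : B)) (q i) * y i = aeval (fun j => (w j : B)) (p i))
    (hlow : ∀ i, ∃ b0 : Fin r → ℤ, (∀ b ∈ (q i).support, (fun j => (b j : ℤ)) - b0 ∈ L) ∧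
      ∀ b ∈ (p i).support, (fun j => (b j : ℤ)) - b0 ∈ L) :
    ∃ r' < r, RatIn k 𝒲 y r' := by
  classical
  obtain ⟨l, hl, hla⟩ := exists_functional L hsat a0 ha0
  obtain ⟨r', bL⟩ := Submodule.basisOfPid (Pi.basisFun ℤ (Fin r)) L
  have hr' : r' < r := by
    have hli : LinearIndependent ℤ (Fin.cons a0 (fun i => ((bL i : L) : Fin r → ℤ)) :
        Fin (r' + 1) → Fin r → ℤ) := by
      rw [Fintype.linearIndependent_iff]
      intro g hg
      rw [Fin.sum_univ_succ] at hg
      simp only [Fin.cons_zero, Fin.cons_succ] at hg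
      have h1 : g 0 = 0 := by
        have h2 : ∑ j, l j * (g 0 • a0 + ∑ i : Fin r', g i.succ • ((bL i : L) : Fin r → ℤ)) j = 0 := by
          rw [hg]
          simp
        have h3 : (∑ i : Fin r', g i.succ • ((bL i : L) : Fin r → ℤ)) ∈ L :=
          Submodule.sum_mem _ fun i _ => Submodule.smul_mem _ _ (bL i).2
        have h4 := hl _ h3
        have h5 : ∑ j, l j * (g 0 • a0 + ∑ i : Fin r', g i.succ • ((bL i : L) : Fin r → ℤ)) j =
            g 0 * ∑ j, l j * a0 j +
              ∑ j, l j * (∑ i : Fin r', g i.succ • ((bL i : L) : Fin r → ℤ)) j := by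
          rw [Finset.mul_sum, ← Finset.sum_add_distrib]
          refine Finset.sum_congr rfl fun j _ => ?_
          rw [Pi.add_apply, Pi.smul_apply, smul_eq_mul]
          ring
        rw [h5, h4, add_zero] at h2
        exact (mul_eq_zero.1 h2).resolve_right hla
      rw [h1, zero_smul, zero_add] at hg
      have h2 : ∑ i : Fin r', g i.succ • bL i = 0 := by
        apply Subtype.ext
        rw [AddSubmonoidClass.coe_finset_sum]
        exact hg
      have h3 := Fintype.linearIndependent_iff.1 bL.linearIndependent (fun i => g i.succ) h2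
      intro i
      refine Fin.cases h1 (fun i => h3 i) i
    have h2 := hli.fintype_card_le_finrank
    rw [Fintype.card_fin, Module.finrank_fintype_fun_eq_card, Fintype.card_fin] at h2
    omega
  let w' : Fin r' → Bˣ := fun i => mz w ((bL i : L) : Fin r → ℤ)
  have hcomp : ∀ c : Fin r' → ℤ, mz w' c = mz w (∑ i, c i • ((bL i : L) : Fin r → ℤ)) :=
    fun c => mz_comp w (fun i => ((bL i : L) : Fin r → ℤ)) c
  have hrepr : ∀ b ∈ L, ∃ c : Fin r' → ℤ, mz w b = mz w' c := by
    intro b hb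
    refine ⟨fun i => bL.repr ⟨b, hb⟩ i, ?_⟩
    rw [hcomp]
    congr 1
    have h1 := congrArg Subtype.val (bL.sum_repr ⟨b, hb⟩)
    rw [AddSubmonoidClass.coe_finset_sum] at h1
    exact h1.symm
  have hspan : ∀ (b0 : Fin r → ℤ) (P : MvPolynomial (Fin r) k),
      (∀ b ∈ P.support, (fun j => (b j : ℤ)) - b0 ∈ L) →
      ((mz w (-b0) : Bˣ) : B) * aeval (fun j => (w j : B)) P ∈ LS k w' := by
    intro b0 P hP
    rw [aeval_eq_sum, Finset.mul_sum]
    refine Submodule.sum_mem _ fun b hb => ?_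
    rw [mul_smul_comm]
    refine Submodule.smul_mem _ _ ?_
    obtain ⟨c, hc⟩ := hrepr _ (hP b hb)
    rw [← Units.val_mul, ← mz_add, neg_add_eq_sub, hc]
    exact mz_mem w' c
  refine ⟨r', hr', w', fun i => ?_, fun c hc => ?_, fun i => ?_⟩
  · exact Subgroup.prod_mem _ fun j _ => Subgroup.zpow_mem _ (hw𝒲 j) _
  · rw [hcomp] at hc
    have h1 := hind _ hc
    have h2 : ∑ i : Fin r', c i • bL i = 0 := by
      apply Subtype.ext
      rw [AddSubmonoidClass.coe_finset_sum]
      exact h1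
    funext i
    exact Fintype.linearIndependent_iff.1 bL.linearIndependent c h2 i
  · obtain ⟨b0, h1, h2⟩ := hlow i
    refine ⟨_, hspan b0 (p i) h2, _, hspan b0 (q i) h1, mul_ne_zero (Units.ne_zero _) (hq i), ?_⟩
    rw [mul_assoc, hqp]

variable [CharZero k]

/-- the curve in a direction in which a coordinate is not constant -/
theorem curve_at (ρ : Rp k B) (w : Fin r → Bˣ) (hw : AlgebraicIndependent k (fun j => (w j : B)))
    (L : Submodule ℤ (Fin r → ℤ))
    (hsat : ∀ (m : ℤ) (b : Fin r → ℤ), m ≠ 0 → m • b ∈ L → b ∈ L)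
    (y : Fin n → B) (p q : Fin n → MvPolynomial (Fin r) k) (hq : ∀ i, q i ≠ 0)
    (hqp : ∀ i, aeval (fun j => (w j : B)) (q i) * y i = aeval (fun j => (w j : B)) (p i))
    (hqL : ∀ i, ∀ b ∈ (q i).support, ∀ b' ∈ (q i).support, (fun j => (b j : ℤ) - b' j) ∈ L)
    (i0 : Fin n) (b1 b2 : Fin r →₀ ℕ) (hb1 : b1 ∈ (p i0).support) (hb2 : b2 ∈ (q i0).support)
    (hb12 : (fun j => (b1 j : ℤ) - b2 j) ∉ L) {ι : Type} (F : ι → MvPolynomial (Fin n) k)
    (hF : ∀ l, aeval y (F l) = 0) : ∀ᶠ t in ρ.G, CurveAt ρ F y t := by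
  classical
  obtain ⟨l, hl, hl0⟩ := exists_functional L hsat _ hb12
  have hom : ∀ i, ∀ b ∈ (q i).support, ∀ b' ∈ (q i).support,
      ∑ j, l j * (b j : ℤ) = ∑ j, l j * (b' j : ℤ) := by
    intro i b hb b' hb'
    have h1 := hl _ (hqL i b hb b' hb')
    rw [← sub_eq_zero, ← Finset.sum_sub_distrib, ← h1]
    exact Finset.sum_congr rfl fun j _ => (mul_sub _ _ _).symm
  set e : ℤ := ∑ j, l j * (b2 j : ℤ) with he
  let P2 : MvPolynomial (Fin r) k := ∑ b ∈ (p i0).support,
    monomial b (((2 : k) ^ (∑ j, l j * (b j : ℤ)) - 2 ^ e) * coeff b (p i0))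
  have h20 : (2 : k) ≠ 0 := two_ne_zero
  have hP2 : P2 ≠ 0 := by
    intro h
    have h1 := congrArg (coeff b1) h
    simp only [P2] at h1
    rw [coeff_sum, Finset.sum_eq_single b1] at h1
    · rw [coeff_monomial, if_pos rfl, coeff_zero] at h1
      rcases mul_eq_zero.1 h1 with h2 | h2
      · have h3 : (2 : k) ^ (∑ j, l j * (b1 j : ℤ) - e) = 1 := by
          rw [zpow_sub₀ h20, sub_eq_zero.1 h2, div_self (zpow_ne_zero _ h20)]
        refine two_zpow_ne _ ?_ h3
        intro h4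
        apply hl0
        rw [← h4, he, ← Finset.sum_sub_distrib]
        exact Finset.sum_congr rfl fun j _ => mul_sub _ _ _
      · exact (mem_support_iff.1 hb1) h2
    · intro b _ hb
      rw [coeff_monomial, if_neg hb]
    · intro h
      exact absurd hb1 h
  -- the eventual conditions
  have hinj : Function.Injective (aeval (R := k) fun j => (w j : B)) := hw
  have e1 : ∀ᶠ t in ρ.G, ∀ j, ρ.rep (w j : B) t ≠ 0 :=
    (Filter.eventually_all).2 fun j => ρ.rep_ne _ (Units.ne_zero _)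
  have ene : ∀ P : MvPolynomial (Fin r) k, P ≠ 0 →
      ∀ᶠ t in ρ.G, eval (fun j => ρ.rep (w j : B) t) P ≠ 0 := by
    intro P hP
    have h1 : aeval (fun j => (w j : B)) P ≠ 0 := by
      intro h
      exact hP (hinj (by rw [h, map_zero]))
    filter_upwards [ρ.rep_ne _ h1, ρ.rep_aeval (fun j => (w j : B)) P] with t g1 g2
    rwa [← g2]
  have e2 : ∀ᶠ t in ρ.G, ∀ i, eval (fun j => ρ.rep (w j : B) t) (q i) ≠ 0 :=
    (Filter.eventually_all).2 fun i => ene _ (hq i)
  have e3 : ∀ᶠ t in ρ.G, ∀ i, eval (fun j => ρ.rep (w j : B) t) (q i) * ρ.rep (y i) t =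
      eval (fun j => ρ.rep (w j : B) t) (p i) := by
    refine (Filter.eventually_all).2 fun i => ?_
    filter_upwards [ρ.rep_aeval (fun j => (w j : B)) (q i),
      ρ.rep_aeval (fun j => (w j : B)) (p i),
      ρ.rep_mul (aeval (fun j => (w j : B)) (q i)) (y i)] with t g1 g2 g3
    rw [← g1, ← g2, ← g3, hqp]
  filter_upwards [e1, e2, e3, ene P2 hP2] with t h1 h2 h3 h4
  set w0 : Fin r → k := fun j => ρ.rep (w j : B) t with hw0
  obtain ⟨v, hv1, hv2, hv3⟩ := curve_of_data l p q hom hq F (fun j => (w j : B)) hw y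
    hqp hF w0 h1 h2
  have hs1 : (fun j => w0 j * (1 : k) ^ l j) = w0 := by
    funext j
    rw [one_zpow, mul_one]
  have hv1' : v 1 = fun i => ρ.rep (y i) t := by
    funext i
    have h5 := hv3 1 one_ne_zero i
    rw [hs1, ← h3 i] at h5
    exact mul_left_cancel₀ (h2 i) h5
  refine ⟨v, hv1, hv2, hv1', i0, ?_⟩
  intro heq
  have h5 := hv3 2 h20 i0
  have h6 : eval (fun j => w0 j * (2 : k) ^ l j) (q i0) = (2 : k) ^ e * eval w0 (q i0) :=
    eval_hom l (q i0) e (fun b' hb' => hom i0 b' hb' b2 hb2) w0 2 h20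
  have h7 : eval (fun j => w0 j * (2 : k) ^ l j) (p i0) = ∑ b ∈ (p i0).support,
      (2 : k) ^ (∑ j, l j * (b j : ℤ)) * coeff b (p i0) * ∏ j, w0 j ^ b j := by
    rw [MvPolynomial.eval_eq']
    refine Finset.sum_congr rfl fun b _ => ?_
    have h8 : ∏ j, (w0 j * (2 : k) ^ l j) ^ b j =
        (∏ j, w0 j ^ b j) * (2 : k) ^ (∑ j, l j * (b j : ℤ)) := by
      simp only [mul_pow]
      rw [Finset.prod_mul_distrib]
      congr 1
      have h8 : ∀ T : Finset (Fin r), ∏ j ∈ T, ((2 : k) ^ l j) ^ b j =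
          (2 : k) ^ (∑ j ∈ T, l j * (b j : ℤ)) := by
        intro T
        induction T using Finset.induction_on with
        | empty => simp
        | insert i T hi ih =>
          rw [Finset.prod_insert hi, Finset.sum_insert hi, zpow_add₀ h20, ih, zpow_mul,
            zpow_natCast]
      exact h8 _
    rw [h8]
    ring
  have h9 : eval w0 P2 = eval (fun j => w0 j * (2 : k) ^ l j) (p i0) -
      2 ^ e * eval w0 (p i0) := by
    rw [h7, MvPolynomial.eval_eq' w0 (p i0), Finset.mul_sum, ← Finset.sum_sub_distrib]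
    simp only [P2]
    rw [map_sum]
    refine Finset.sum_congr rfl fun b _ => ?_
    rw [eval_monomial, Finsupp.prod_fintype _ _ (fun _ => pow_zero _)]
    ring
  apply h4
  rw [h9, ← h5, h6, heq, hv1', mul_assoc, h3 i0, sub_self]

end Pool.Agent.H21bl.QS
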