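import Mathlib
import Pool.Agent.H21bl.QS.Lat
import Pool.Agent.N754.LT.Ari

/-!
The lattice of the exponents of small monomials: the denominators of integral germs live on it.
-/

set_option autoImplicit false
set_option linter.unusedSectionVars false

open Finset MvPolynomial Filter

namespace Pool.Agent.H21bl.QS

open Pool.Agent.N754.LT
open NumberField IsDedekindDomain
open Pool.Agent.Y742.SF Pool.Agent.Y742.AR
open Pool.Agent.W235.RM Pool.Agent.H159R3.Exp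

theorem low_gen {k R : Type} [Field k] [CommRing R] [IsDomain R] [Algebra k R] (D : Dc k R)
    {n r : ℕ} (hr : 1 ≤ r) (wR : Fin r → Rˣ)
    (hwRAI : AlgebraicIndependent k (fun j => (wR j : R))) (yR : Fin n → R)
    (p q : Fin n → MvPolynomial (Fin r) k) (hpq : ∀ i, IsRelPrime (q i) (p i)) (hq : ∀ i, q i ≠ 0)
    (hqR : ∀ i, aeval (fun j => (wR j : R)) (q i) * yR i = aeval (fun j => (wR j : R)) (p i))
    (hone : ∃ C : ℝ, 0 ≤ C ∧ D.Neg (fun ω => D.one ω -
      C * (∑ j, |D.lg (wR j : R) ω| + ∑ i, max (D.lg (yR i) ω) 0)))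
    (hnn : ¬ D.Neg D.one) :
    (∃ a, a ∉ lowSub D wR) ∧ ∀ i, ∀ b ∈ (q i).support, ∀ b' ∈ (q i).support,
      (fun j => (b j : ℤ) - b' j) ∈ lowSub D wR := by
  classical
  constructor
  · by_contra hcon
    push Not at hcon
    have h2 : ∀ j, D.Neg (fun ω => |D.lg (wR j : R) ω|) := by
      intro j
      refine D.neg_mono _ _ (Filter.Eventually.of_forall fun ω => ?_)
        ((mem_lowSub D wR _).1 (hcon (Pi.single j 1)))
      rw [Finset.sum_eq_single j]
      · rw [Pi.single_eq_same]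
        simp
      · intro l _ hl
        rw [Pi.single_eq_of_ne hl]
        simp
      · intro h
        exact absurd (Finset.mem_univ _) h
    have h3 : D.Neg (fun ω => ∑ j, |D.lg (wR j : R) ω|) := D.neg_sum _ _ fun j _ => h2 j
    have h4 : ∀ i, D.Neg (fun ω => max (D.lg (yR i) ω) 0) := by
      intro i
      obtain ⟨M, hM, h5⟩ := quot_le D wR hwRAI (p i) (q i) (hq i) (yR i) (hqR i)
      refine D.neg_mono _ _ (Filter.Eventually.of_forall fun ω => ?_)
        (D.neg_add _ _ h5 (D.neg_smul _ M hM h3))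
      linarith
    obtain ⟨C, hC, h5⟩ := hone
    apply hnn
    refine D.neg_mono _ _ (Filter.Eventually.of_forall fun ω => ?_)
      (D.neg_add _ _ h5 (D.neg_smul _ C hC (D.neg_add _ _ h3 (D.neg_sum Finset.univ _
        fun i _ => h4 i))))
    linarith
  · intro i b hb b' hb'
    have h1 := quot_neg D wR hwRAI (p i) (q i) (hq i) (hpq i) (yR i) (hqR i) hr
    have h2 := supp_low D wR hwRAI (q i) h1 b b' hb hb'
    rw [mem_lowSub]
    refine D.neg_mono _ _ ?_ h2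
    filter_upwards [lg_mon D wR (fun j => b j), lg_mon D wR (fun j => b' j)] with ω g1 g2
    rw [g1, g2, ← Finset.sum_sub_distrib]
    refine le_of_eq (congrArg _ (Finset.sum_congr rfl fun j _ => ?_))
    push_cast
    ring

section germs

variable {M : Type} [Field M] [NumberField M] [IsGalois ℚ M] (D : PD M) (𝒰 : Ultrafilter ℕ)

theorem exists_low {n r : ℕ} (hr : 1 ≤ r) (w : Fin r → (BA M 𝒰)ˣ) (hw𝒲 : ∀ j, w j ∈ WA D 𝒰)
    (hwAI : AlgebraicIndependent M (fun j => (w j : BA M 𝒰)))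
    (hnc : ∀ j, ∀ c : M, (w j : BA M 𝒰) ≠ algebraMap M (BA M 𝒰) c)
    (y : Fin n → BA M 𝒰) (hy : ∀ i, y i ∈ TIR D 𝒰) (p q : Fin n → MvPolynomial (Fin r) M)
    (hpq : ∀ i, IsRelPrime (q i) (p i)) (hq : ∀ i, q i ≠ 0)
    (hqp : ∀ i, aeval (fun j => (w j : BA M 𝒰)) (q i) * y i =
      aeval (fun j => (w j : BA M 𝒰)) (p i)) :
    ∃ L : Submodule ℤ (Fin r → ℤ), (∀ (m : ℤ) (b : Fin r → ℤ), m ≠ 0 → m • b ∈ L → b ∈ L) ∧
      (∃ a, a ∉ L) ∧ ∀ i, ∀ b ∈ (q i).support, ∀ b' ∈ (q i).support,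
        (fun j => (b j : ℤ) - b' j) ∈ L := by
  classical
  -- the scale
  let rp : BA M 𝒰 → ℕ → M := fun x => rep (K := M) (𝒰 := 𝒰) x
  let s : (((M ≃ₐ[ℚ] M) ⊕ Fin D.s) → ℕ → ℝ) := fun v t =>
    ∑ j, |Real.log (D.av v (rp (w j : BA M 𝒰) t))| + ∑ i, max (Real.log (D.av v (rp (y i) t))) 0
  have hs0 : ∀ v t, 0 ≤ s v t := fun v t => add_nonneg
    (Finset.sum_nonneg fun _ _ => abs_nonneg _) (Finset.sum_nonneg fun _ _ => le_max_right _ _)
  let N : ℕ → ℝ := fun t => 1 + ∑ v, s v t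
  have hN : ∀ t, 1 ≤ N t := fun t => by
    have : 0 ≤ ∑ v, s v t := Finset.sum_nonneg fun _ _ => hs0 _ _
    simp only [N]
    linarith
  have hsN : ∀ v t, s v t ≤ N t := by
    intro v t
    have h1 : s v t ≤ ∑ v, s v t :=
      Finset.single_le_sum (f := fun v => s v t) (fun _ _ => hs0 _ _) (Finset.mem_univ v)
    simp only [N]
    linarith
  have hwN : ∀ v t j, |Real.log (D.av v (rp (w j : BA M 𝒰) t))| ≤ N t := by
    intro v t j
    refine le_trans ?_ (hsN v t)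
    have h1 : |Real.log (D.av v (rp (w j : BA M 𝒰) t))| ≤
        ∑ j, |Real.log (D.av v (rp (w j : BA M 𝒰) t))| :=
      Finset.single_le_sum (f := fun j => |Real.log (D.av v (rp (w j : BA M 𝒰) t))|)
        (fun _ _ => abs_nonneg _) (Finset.mem_univ j)
    have h2 : 0 ≤ ∑ i, max (Real.log (D.av v (rp (y i) t))) 0 :=
      Finset.sum_nonneg fun _ _ => le_max_right _ _
    simp only [s]
    linarith
  have hyN : ∀ v t i, Real.log (D.av v (rp (y i) t)) ≤ N t := by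
    intro v t i
    refine le_trans ?_ (hsN v t)
    have h1 : max (Real.log (D.av v (rp (y i) t))) 0 ≤
        ∑ i, max (Real.log (D.av v (rp (y i) t))) 0 :=
      Finset.single_le_sum (f := fun i => max (Real.log (D.av v (rp (y i) t))) 0)
        (fun _ _ => le_max_right _ _) (Finset.mem_univ i)
    have h2 : 0 ≤ ∑ j, |Real.log (D.av v (rp (w j : BA M 𝒰) t))| :=
      Finset.sum_nonneg fun _ _ => abs_nonneg _
    have h3 := le_max_left (Real.log (D.av v (rp (y i) t))) 0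
    simp only [s]
    linarith
  have hNt : Tendsto N (𝒰 : Filter ℕ) atTop := by
    refine tendsto_of_unbdd N ?_
    rintro ⟨C, hC⟩
    let j0 : Fin r := ⟨0, hr⟩
    obtain ⟨c, hc⟩ := const_of_bdd (D := D) (𝒰 := 𝒰) (w j0 : BA M 𝒰) (hw𝒲 j0).1
      (Real.exp C) (by
        filter_upwards [hC, Pool.Agent.Y742.AR.rep_ne (K := M) (𝒰 := 𝒰) (w j0 : BA M 𝒰)
          (Units.ne_zero _)] with t h1 h2 v
        rw [← Real.log_le_iff_le_exp (D.av_pos v _ h2)]
        exact ((le_abs_self _).trans (hwN v t j0)).trans h1)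
    exact hnc j0 c hc
  -- the elements of the ring
  have hwB : ∀ j, Bd D N 𝒰 (rp (w j : BA M 𝒰)) := by
    intro j
    refine ⟨1, zero_le_one, ?_⟩
    filter_upwards [Pool.Agent.Y742.AR.rep_ne (K := M) (𝒰 := 𝒰) (w j : BA M 𝒰)
      (Units.ne_zero _)] with t h2 v
    rw [one_mul, ← Real.log_le_iff_le_exp (D.av_pos v _ h2)]
    exact (le_abs_self _).trans (hwN v t j)
  have hwB' : ∀ j, Bd D N 𝒰 (rp ((w j)⁻¹ : (BA M 𝒰)ˣ)) := by
    intro j
    refine ⟨1, zero_le_one, ?_⟩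
    rw [Units.val_inv_eq_inv_val]
    filter_upwards [Pool.Agent.Y742.AR.rep_ne (K := M) (𝒰 := 𝒰) (w j : BA M 𝒰)
      (Units.ne_zero _), Pool.Agent.Y742.AR.rep_inv (K := M) (𝒰 := 𝒰) (w j : BA M 𝒰)
      (Units.ne_zero _)] with t h2 h3 v
    have h4 : rp ((w j : BA M 𝒰)⁻¹) t = (rp (w j : BA M 𝒰) t)⁻¹ := h3
    rw [h4, one_mul, ← Real.log_le_iff_le_exp (D.av_pos v _ (inv_ne_zero h2)), av_inv _ _ h2]
    exact (neg_le_abs _).trans (hwN v t j)
  have hyB : ∀ i, Bd D N 𝒰 (rp (y i)) := by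
    intro i
    refine ⟨1, zero_le_one, Filter.Eventually.of_forall fun t v => ?_⟩
    rw [one_mul]
    by_cases h0 : rp (y i) t = 0
    · rw [h0, D.av_zero]
      exact (Real.exp_pos _).le
    · rw [← Real.log_le_iff_le_exp (D.av_pos v _ h0)]
      exact hyN v t i
  let wR : Fin r → (RA D 𝒰 N hN)ˣ := fun j =>
    { val := mkR (w j : BA M 𝒰) (hw𝒲 j).1 (hwB j)
      inv := mkR ((w j)⁻¹ : (BA M 𝒰)ˣ) (hw𝒲 j).2 (hwB' j)
      val_inv := by
        apply vl_inj
        rw [vl_mul, vl_mkR, vl_mkR, vl_one]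
        exact Units.mul_inv (w j)
      inv_val := by
        apply vl_inj
        rw [vl_mul, vl_mkR, vl_mkR, vl_one]
        exact Units.inv_mul (w j) }
  let yR : Fin n → RA D 𝒰 N hN := fun i => mkR (y i) (hy i) (hyB i)
  let V : ℝ := Fintype.card ((M ≃ₐ[ℚ] M) ⊕ Fin D.s)
  let ψ : RA D 𝒰 N hN →ₐ[M] BA M 𝒰 := incA D 𝒰 N hN
  have hψ : Function.Injective ψ := incA_inj D 𝒰 N hN
  have hwR : ∀ j, ψ (wR j : RA D 𝒰 N hN) = w j := fun j => rfl
  have hyR : ∀ i, ψ (yR i) = y i := fun i => rfl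
  have hψP : ∀ P : MvPolynomial (Fin r) M, ψ (aeval (fun j => (wR j : RA D 𝒰 N hN)) P) =
      aeval (fun j => (w j : BA M 𝒰)) P := by
    intro P
    have h3 : (ψ.comp (aeval fun j => (wR j : RA D 𝒰 N hN))) =
        aeval (fun j => (w j : BA M 𝒰)) := by
      ext i
      simp [hwR]
    exact DFunLike.congr_fun h3 P
  have hwRAI : AlgebraicIndependent M (fun j => (wR j : RA D 𝒰 N hN)) := by
    have h1 : Function.Injective (aeval (R := M) fun j => (w j : BA M 𝒰)) := hwAI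
    have h2 : Function.Injective (aeval (R := M) fun j => (wR j : RA D 𝒰 N hN)) := fun P Q h =>
      h1 (by rw [← hψP, ← hψP, h])
    exact h2
  have hqR : ∀ i, aeval (fun j => (wR j : RA D 𝒰 N hN)) (q i) * yR i =
      aeval (fun j => (wR j : RA D 𝒰 N hN)) (p i) := by
    intro i
    apply hψ
    rw [map_mul, hψP, hψP, hyR, hqp]
  have key := low_gen (DcA hNt) hr wR hwRAI yR p q hpq hq hqR ⟨V, Nat.cast_nonneg _, ?_⟩
    (not_neg_oneA hNt)
  · exact ⟨lowSub (DcA hNt) wR, fun m b => lowSub_sat (DcA hNt) wR m b, key.1, key.2⟩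
  intro ε hε
  filter_upwards [hNt.eventually_ge_atTop (V / ε)] with t ht
  rw [div_le_iff₀ hε] at ht
  have h1 : ∑ v, ((N t) - V * s v t) ≤ ε * N t := by
    rw [Finset.sum_sub_distrib, ← Finset.mul_sum, Finset.sum_const, nsmul_eq_mul,
      Finset.card_univ]
    have h2 : (∑ v, s v t) = N t - 1 := by
      simp only [N]
      ring
    rw [h2]
    have h3 : ((Fintype.card ((M ≃ₐ[ℚ] M) ⊕ Fin D.s) : ℕ) : ℝ) = V := rfl
    rw [h3]
    linarith
  exact h1

/-- either a curve, or fewer units -/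
theorem curve_or_fewer {n r : ℕ} (hr : 1 ≤ r) (y : Fin n → BA M 𝒰) (hy : ∀ i, y i ∈ TIR D 𝒰)
    (hR : RatIn M (WA D 𝒰) y r) {ι : Type} (F : ι → MvPolynomial (Fin n) M)
    (hF : ∀ l, aeval y (F l) = 0) :
    (∀ᶠ t in (𝒰 : Filter ℕ), CurveAt (rpA M 𝒰) F y t) ∨ ∃ r' < r, RatIn M (WA D 𝒰) y r' := by
  classical
  obtain ⟨w, hw𝒲, hind, hab⟩ := hR
  have hwAI : AlgebraicIndependent M (fun j => (w j : BA M 𝒰)) :=
    algInd_of_units (WA D 𝒰) (fun m g hg hne c hc => unitA D 𝒰 m g hg hne c hc) w hw𝒲 hind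
  have hex : ∀ i, ∃ p q : MvPolynomial (Fin r) M, IsRelPrime q p ∧
      aeval (fun j => (w j : BA M 𝒰)) q ≠ 0 ∧
      aeval (fun j => (w j : BA M 𝒰)) q * y i = aeval (fun j => (w j : BA M 𝒰)) p := by
    intro i
    obtain ⟨a, ha, b, hb, hb0, h⟩ := hab i
    exact exists_frac w ha hb hb0 h
  choose p q hpq hq0 hqp using hex
  have hq : ∀ i, q i ≠ 0 := fun i h => hq0 i (by rw [h, map_zero])
  have hnc : ∀ j, ∀ c : M, (w j : BA M 𝒰) ≠ algebraMap M (BA M 𝒰) c := by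
    intro j c hc
    have h1 := hind (Pi.single j 1) ⟨c, by
      have h2 : mz w (Pi.single j (1 : ℤ)) = w j := by
        unfold mz
        rw [Finset.prod_eq_single j]
        · rw [Pi.single_eq_same, zpow_one]
        · intro l _ hl
          rw [Pi.single_eq_of_ne hl, zpow_zero]
        · intro h
          exact absurd (Finset.mem_univ _) h
      rw [h2]
      exact hc⟩
    have h2 := congrFun h1 j
    rw [Pi.single_eq_same, Pi.zero_apply] at h2
    exact one_ne_zero h2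
  obtain ⟨L, hsat, ⟨a0, ha0⟩, hqL⟩ := exists_low D 𝒰 hr w hw𝒲 hwAI hnc y hy p q hpq hq hqp
  by_cases hall : ∀ i, ∀ b1 ∈ (p i).support, ∀ b2 ∈ (q i).support,
      (fun j => (b1 j : ℤ) - b2 j) ∈ L
  · right
    refine descent (WA D 𝒰) w hw𝒲 hind L hsat a0 ha0 y p q hq0 hqp fun i => ?_
    obtain ⟨b2, hb2⟩ := MvPolynomial.support_nonempty.2 (hq i)
    exact ⟨fun j => (b2 j : ℤ), fun b hb => hqL i b hb b2 hb2, fun b hb => hall i b hb b2 hb2⟩
  · left
    push Not at hall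
    obtain ⟨i0, b1, hb1, b2, hb2, hb12⟩ := hall
    exact curve_at (rpA M 𝒰) w hwAI L hsat y p q hq hqp hqL i0 b1 b2 hb1 hb2 hb12 F hF

theorem const_of_zero {n : ℕ} (y : Fin n → BA M 𝒰) (h : RatIn M (WA D 𝒰) y 0) :
    ∀ i, ∃ c : M, y i = algebraMap M (BA M 𝒰) c := by
  obtain ⟨w, _, _, hab⟩ := h
  intro i
  obtain ⟨a, ha, b, hb, hb0, h1⟩ := hab i
  have hc : ∀ x ∈ LS M w, ∃ c : M, x = algebraMap M (BA M 𝒰) c := by
    intro x hx
    unfold LS at hx
    refine Submodule.span_induction ?_ ?_ ?_ ?_ hx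
    · rintro _ ⟨c, rfl⟩
      refine ⟨1, ?_⟩
      unfold mz
      simp
    · exact ⟨0, by rw [map_zero]⟩
    · rintro x y _ _ ⟨c, hc⟩ ⟨d, hd⟩
      exact ⟨c + d, by rw [map_add, hc, hd]⟩
    · rintro c x _ ⟨d, hd⟩
      exact ⟨c * d, by rw [map_mul, Algebra.smul_def, hd]⟩
  obtain ⟨ca, hca⟩ := hc a ha
  obtain ⟨cb, hcb⟩ := hc b hb
  have hcb0 : cb ≠ 0 := fun h0 => hb0 (by rw [hcb, h0, map_zero])
  refine ⟨cb⁻¹ * ca, ?_⟩
  rw [map_mul, ← hca, ← h1, hcb, ← mul_assoc, ← map_mul, inv_mul_cancel₀ hcb0, map_one, one_mul]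

/-- integral germs which are rational functions of units, not all constant, give curves -/
theorem curve_of_rat {n r : ℕ} (y : Fin n → BA M 𝒰) (hy : ∀ i, y i ∈ TIR D 𝒰)
    (hR : RatIn M (WA D 𝒰) y r) (hync : ∃ i, ∀ c : M, y i ≠ algebraMap M (BA M 𝒰) c) {ι : Type}
    (F : ι → MvPolynomial (Fin n) M) (hF : ∀ l, aeval y (F l) = 0) :
    ∀ᶠ t in (𝒰 : Filter ℕ), CurveAt (rpA M 𝒰) F y t := by
  classical
  have hex : ∃ r, RatIn M (WA D 𝒰) y r := ⟨r, hR⟩
  have h0 : RatIn M (WA D 𝒰) y (Nat.find hex) := Nat.find_spec hex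
  have h1 : 1 ≤ Nat.find hex := by
    by_contra hlt
    have h2 : Nat.find hex = 0 := by omega
    rw [h2] at h0
    obtain ⟨i, hi⟩ := hync
    obtain ⟨c, hc⟩ := const_of_zero D 𝒰 y h0 i
    exact hi c hc
  rcases curve_or_fewer D 𝒰 h1 y hy h0 F hF with h | ⟨r', hr', h⟩
  · exact h
  · exact absurd h (Nat.find_min hex hr')

end germs

end Pool.Agent.H21bl.QS
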