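import Mathlib
import Pool.Agent.H21bl.QS.Low
import Pool.Agent.H21bl.LT.ArM

/-!
Integral points whose coordinates are quotients of sums of boundedly many units.
-/

set_option autoImplicit false
set_option linter.unusedSectionVars false

namespace Pool.Agent.H21bl.QS

open Filter Topology MvPolynomial NumberField IsDedekindDomain
open Pool.Agent.N754.LT Pool.Agent.H21bl
open Pool.Agent.Y742.SF Pool.Agent.Y742.AR
open Pool.Agent.H159R3.Exp (Laur FinitelyManyIntegral intPoints)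
open Pool.Agent.W235.RM
open scoped NumberField

/-- the sums of at most `m` `S`-units of the number field `L` -/
def UnitSums (L : Type) [Field L] [NumberField L] (S : Set (HeightOneSpectrum (𝓞 L))) (m : ℕ) :
    Set L :=
  {x | ∃ a : Fin m → L, (∀ i, a i = 0 ∨ ∃ u ∈ S.unit L, (u : L) = a i) ∧ x = ∑ i, a i}

/-- the quotients of sums of at most `m` `S`-units of the number field `L` -/
def UnitQuotients (L : Type) [Field L] [NumberField L] (S : Set (HeightOneSpectrum (𝓞 L)))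
    (m : ℕ) : Set L :=
  {x | ∃ a ∈ UnitSums L S m, ∃ b ∈ UnitSums L S m, b ≠ 0 ∧ x = a / b}

/-- Condition (ii) for the `S`-integral points whose coordinates are quotients of sums of at most
`m` `S`-units: they are finite in number outside `V'`, for all `L`, `S` and `m`. -/
def QuotientFinite {K : Type} [Field K] {ι κ : Type} {n : ℕ}
    (F : ι → MvPolynomial (Fin n) (𝓞 K)) (G : κ → MvPolynomial (Fin n) (𝓞 K)) : Prop :=
  ∀ (L : Type) [Field L] [NumberField L] [Algebra K L] (S : Set (HeightOneSpectrum (𝓞 L))),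
    S.Finite → ∀ m : ℕ,
      ({x ∈ intPoints F L S | ∀ j, x j ∈ UnitQuotients L S m} \ intPoints G L S).Finite

theorem unit_int {L : Type} [Field L] [NumberField L] {S : Set (HeightOneSpectrum (𝓞 L))} {u : Lˣ}
    (hu : u ∈ S.unit L) : (u : L) ∈ S.integer L ∧ ((u : L)⁻¹) ∈ S.integer L := by
  constructor
  · intro v hv
    exact (Set.unit_valuation_eq_one S L ⟨u, hu⟩ hv).le
  · intro v hv
    have h1 := Set.unit_valuation_eq_one S L (⟨u, hu⟩ : S.unit L) hv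
    rw [map_inv₀]
    have h2 : v.valuation L (u : L) = 1 := h1
    rw [h2, inv_one]

section germs

variable {M : Type} [Field M] [NumberField M] [IsGalois ℚ M] (D : PD M) (𝒰 : Ultrafilter ℕ)

theorem gA_mem_TIR (f : ℕ → M) (hf : ∀ᶠ t in (𝒰 : Filter ℕ), D.TInt (f t)) :
    gA 𝒰 f ∈ TIR D 𝒰 := by
  rw [mem_TIR]
  refine ⟨1, one_ne_zero, ?_⟩
  filter_upwards [rep_gA 𝒰 f, hf] with t ht h2
  have h1 : ((1 : 𝓞 M) : M) = 1 := rfl
  rw [h1, one_mul]
  show D.TInt (rep (K := M) (𝒰 := 𝒰) (gA 𝒰 f) t)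
  rw [ht]
  exact h2

theorem gA_mul (f g : ℕ → M) : gA 𝒰 (fun t => f t * g t) = gA 𝒰 f * gA 𝒰 g := by
  rw [← sub_eq_zero]
  apply zero_of_rep 𝒰
  have h1 := (rpA M 𝒰).rep_aeval (![gA 𝒰 (fun t => f t * g t), gA 𝒰 f, gA 𝒰 g] : Fin 3 → BA M 𝒰)
    (X 0 - X 1 * X 2)
  filter_upwards [h1, rep_gA 𝒰 (fun t => f t * g t), rep_gA 𝒰 f, rep_gA 𝒰 g] with t h2 h3 h4 h5
  have h6 : rep (K := M) (𝒰 := 𝒰) (gA 𝒰 (fun t => f t * g t) - gA 𝒰 f * gA 𝒰 g) t =
      rep (K := M) (𝒰 := 𝒰) (gA 𝒰 (fun t => f t * g t)) t -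
        rep (K := M) (𝒰 := 𝒰) (gA 𝒰 f) t * rep (K := M) (𝒰 := 𝒰) (gA 𝒰 g) t := by
    simp only [map_sub, map_mul, aeval_X, eval_X, Matrix.cons_val_zero, Matrix.cons_val_one,
      Matrix.cons_val] at h2
    exact h2
  rw [h6, h3, h4, h5, sub_self]

theorem gA_sum {m : ℕ} (f : Fin m → ℕ → M) :
    gA 𝒰 (fun t => ∑ i, f i t) = ∑ i, gA 𝒰 (f i) := by
  rw [← sub_eq_zero]
  apply zero_of_rep 𝒰
  have h1 := (rpA M 𝒰).rep_aeval
    (Fin.cons (gA 𝒰 (fun t => ∑ i, f i t)) (fun i => gA 𝒰 (f i)) : Fin (m + 1) → BA M 𝒰)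
    (X 0 - ∑ i : Fin m, X i.succ)
  have h2 : ∀ᶠ t in (𝒰 : Filter ℕ), ∀ i, rep (K := M) (𝒰 := 𝒰) (gA 𝒰 (f i)) t = f i t :=
    (Filter.eventually_all).2 fun i => rep_gA 𝒰 (f i)
  filter_upwards [h1, rep_gA 𝒰 (fun t => ∑ i, f i t), h2] with t h3 h4 h5
  have h6 : rep (K := M) (𝒰 := 𝒰) (gA 𝒰 (fun t => ∑ i, f i t) - ∑ i, gA 𝒰 (f i)) t =
      rep (K := M) (𝒰 := 𝒰) (gA 𝒰 (fun t => ∑ i, f i t)) t -
        ∑ i, rep (K := M) (𝒰 := 𝒰) (gA 𝒰 (f i)) t := by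
    simp only [map_sub, map_sum, aeval_X, eval_X, Fin.cons_zero, Fin.cons_succ] at h3
    exact h3
  rw [h6, h4, sub_eq_zero]
  exact (Finset.sum_congr rfl fun i _ => h5 i).symm

theorem gA_zero_iff (f : ℕ → M) : gA 𝒰 f = 0 ↔ ∀ᶠ t in (𝒰 : Filter ℕ), f t = 0 := by
  constructor
  · intro h
    have h1 : ∀ᶠ t in (𝒰 : Filter ℕ), rep (K := M) (𝒰 := 𝒰) (0 : BA M 𝒰) t = 0 :=
      Pool.Agent.Y742.AR.rep_zero (K := M) (𝒰 := 𝒰)
    filter_upwards [rep_gA 𝒰 f, h1] with t h2 h3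
    rw [← h2, h, h3]
  · intro h
    apply zero_of_rep 𝒰
    filter_upwards [rep_gA 𝒰 f, h] with t h2 h3
    rw [h2, h3]

/-- germs of units -/
theorem unit_or_zero (f : ℕ → M) (hf : ∀ t, f t = 0 ∨ (f t ≠ 0 ∧ D.TInt (f t) ∧ D.TInt (f t)⁻¹)) :
    gA 𝒰 f = 0 ∨ ∃ u ∈ WA D 𝒰, (u : BA M 𝒰) = gA 𝒰 f := by
  by_cases h0 : gA 𝒰 f = 0
  · exact Or.inl h0
  right
  have h1 : ∀ᶠ t in (𝒰 : Filter ℕ), f t ≠ 0 := by
    have h2 : ¬ ∀ᶠ t in (𝒰 : Filter ℕ), f t = 0 := fun h => h0 ((gA_zero_iff 𝒰 f).2 h)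
    exact Ultrafilter.eventually_not.2 h2
  have h3 : gA 𝒰 f * gA 𝒰 (fun t => (f t)⁻¹) = 1 := by
    rw [← gA_mul, ← sub_eq_zero]
    apply zero_of_rep 𝒰
    have h4 := (rpA M 𝒰).rep_aeval
      (![gA 𝒰 (fun t => f t * (f t)⁻¹)] : Fin 1 → BA M 𝒰) (X 0 - C 1)
    filter_upwards [h4, rep_gA 𝒰 (fun t => f t * (f t)⁻¹), h1] with t h5 h6 h7
    have h8 : rep (K := M) (𝒰 := 𝒰) (gA 𝒰 (fun t => f t * (f t)⁻¹) - (1 : BA M 𝒰)) t =
        rep (K := M) (𝒰 := 𝒰) (gA 𝒰 (fun t => f t * (f t)⁻¹)) t - 1 := by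
      simp only [map_sub, aeval_X, eval_X, map_one, Matrix.cons_val_zero, eval_C] at h5
      exact h5
    rw [h8, h6, mul_inv_cancel₀ h7, sub_self]
  refine ⟨⟨gA 𝒰 f, gA 𝒰 (fun t => (f t)⁻¹), h3, by rw [mul_comm]; exact h3⟩, ?_, rfl⟩
  rw [mem_WA]
  refine ⟨gA_mem_TIR D 𝒰 _ ?_, gA_mem_TIR D 𝒰 _ ?_⟩
  · filter_upwards [h1] with t h5
    exact ((hf t).resolve_left h5).2.1
  · filter_upwards [h1] with t h5
    exact ((hf t).resolve_left h5).2.2

/-- elements of the spans of units are rational functions of independent units -/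
theorem ratIn_of_sums {n m : ℕ} (y : Fin n → BA M 𝒰) (a b : Fin n → Fin m → BA M 𝒰)
    (ha : ∀ j i, a j i = 0 ∨ ∃ u ∈ WA D 𝒰, (u : BA M 𝒰) = a j i)
    (hb : ∀ j i, b j i = 0 ∨ ∃ u ∈ WA D 𝒰, (u : BA M 𝒰) = b j i)
    (hb0 : ∀ j, ∑ i, b j i ≠ 0) (h : ∀ j, (∑ i, b j i) * y j = ∑ i, a j i) :
    ∃ r, RatIn M (WA D 𝒰) y r := by
  classical
  let C : Subgroup (WA D 𝒰) := (constU M (BA M 𝒰)).subgroupOf (WA D 𝒰)
  let I : Type := (Fin n × Fin m) ⊕ (Fin n × Fin m)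
  let g : I → BA M 𝒰 := Sum.elim (fun x => a x.1 x.2) (fun x => b x.1 x.2)
  have hg : ∀ x, ∃ u : WA D 𝒰, g x = 0 ∨ ((u : (BA M 𝒰)ˣ) : BA M 𝒰) = g x := by
    rintro (x | x)
    · rcases ha x.1 x.2 with h1 | ⟨u, hu, h1⟩
      · exact ⟨1, Or.inl h1⟩
      · exact ⟨⟨u, hu⟩, Or.inr h1⟩
    · rcases hb x.1 x.2 with h1 | ⟨u, hu, h1⟩
      · exact ⟨1, Or.inl h1⟩
      · exact ⟨⟨u, hu⟩, Or.inr h1⟩
  choose u hu using hg
  obtain ⟨r, w', a', c', hc', hu', hind', _⟩ := exists_basis C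
    (fun g m hm h => by
      obtain ⟨c, hc⟩ := tfA D 𝒰 g.1 g.2 m hm h
      exact ⟨c, hc⟩) u
  let w : Fin r → (BA M 𝒰)ˣ := fun j => (w' j).1
  have hprod : ∀ b : Fin r → ℤ, ((∏ j, w' j ^ b j : WA D 𝒰) : (BA M 𝒰)ˣ) = mz w b := by
    intro b
    rw [Subgroup.val_finsetProd]
    exact Finset.prod_congr rfl fun j _ => rfl
  have hmem : ∀ x, g x ∈ LS M w := by
    intro x
    rcases hu x with h1 | h1
    · rw [h1]
      exact Submodule.zero_mem _
    · obtain ⟨c, hc⟩ := hc' x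
      have h2 := congrArg (fun g : WA D 𝒰 => ((g : (BA M 𝒰)ˣ) : BA M 𝒰)) (hu' x)
      simp only [Subgroup.coe_mul, Units.val_mul] at h2
      rw [h1, hprod] at h2
      have h3 : (((c' x : WA D 𝒰) : (BA M 𝒰)ˣ) : BA M 𝒰) = algebraMap M (BA M 𝒰) c := hc
      rw [h2, h3, ← Algebra.smul_def]
      exact Submodule.smul_mem _ _ (mz_mem w _)
  refine ⟨r, w, fun j => (w' j).2, fun b hb => ?_, fun j => ⟨∑ i, a j i, ?_, ∑ i, b j i, ?_,
    hb0 j, h j⟩⟩
  · apply hind'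
    obtain ⟨c, hc⟩ := hb
    refine ⟨c, ?_⟩
    have h1 : ((WA D 𝒰).subtype (∏ j, w' j ^ b j) : (BA M 𝒰)ˣ) = mz w b := hprod b
    rw [h1]
    exact hc
  · exact Submodule.sum_mem _ fun i _ => hmem (Sum.inl (j, i))
  · exact Submodule.sum_mem _ fun i _ => hmem (Sum.inr (j, i))

end germs

variable {n : ℕ} {ι : Type}

/-- `z` is a point of a nonconstant Laurent curve in `V(ℂ)` -/
def OnLaurent {K : Type} [Field K] (σ : K →+* ℂ) (F : ι → MvPolynomial (Fin n) (𝓞 K))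
    (z : Fin n → ℂ) : Prop :=
  ∃ v : ℂ → Fin n → ℂ, (∀ j, Laur fun t => v t j) ∧
    (∀ i t, t ≠ 0 → eval₂ (σ.comp (algebraMap (𝓞 K) K)) (v t) (F i) = 0) ∧ v 1 = z ∧ v 2 ≠ v 1

/-- complex curves from curves over number fields -/
theorem onLaurent_of {K M : Type} [Field K] [Field M] [CharZero M] (σ : K →+* ℂ)
    (F : ι → MvPolynomial (Fin n) (𝓞 K)) (c0 : 𝓞 K →+* M) (τ : M →+* ℂ)
    (hτ : τ.comp c0 = σ.comp (algebraMap (𝓞 K) K)) (v : M → Fin n → M)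
    (hv : ∀ j, Laur fun t => v t j) (hvF : ∀ i t, t ≠ 0 → eval₂ c0 (v t) (F i) = 0)
    (hne : ∃ j, v 2 j ≠ v 1 j) : OnLaurent σ F fun j => τ (v 1 j) := by
  have hτi : Function.Injective τ := τ.injective
  obtain ⟨j1, hj1⟩ := hne
  have hτe : ∀ (x : Fin n → M) (Q : MvPolynomial (Fin n) (𝓞 K)),
      τ (eval₂ c0 x Q) = eval₂ (σ.comp (algebraMap (𝓞 K) K)) (fun j => τ (x j)) Q := by
    intro x Q
    have h2 := MvPolynomial.hom_eval₂ Q c0 τ x
    rw [hτ] at h2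
    exact h2
  obtain ⟨N, Q, hQ⟩ := Laur.common v hv
  let w : ℂ → Fin n → ℂ := fun t j => ((Q j).map τ).eval t / t ^ N
  have hw : ∀ t : M, t ≠ 0 → ∀ j, w (τ t) j = τ (v t j) := by
    intro t ht j
    rw [hQ t ht j, map_div₀, map_pow]
    simp only [w]
    congr 1
    exact Polynomial.eval_map_apply τ t
  have hwL : ∀ j, Laur fun t => w t j := by
    intro j
    refine ⟨N, (Q j).map τ, fun t ht => ?_⟩
    exact div_mul_cancel₀ _ (pow_ne_zero _ ht)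
  have hw' : ∀ t : M, t ≠ 0 → w (τ t) = fun j => τ (v t j) := fun t ht => funext (hw t ht)
  have hw1 : w 1 = fun j => τ (v 1 j) := by
    rw [← hw' 1 one_ne_zero, map_one]
  have hw2 : w 2 = fun j => τ (v 2 j) := by
    rw [← hw' 2 two_ne_zero, map_ofNat]
  refine ⟨w, hwL, fun i => ?_, hw1, fun heq => hj1 ?_⟩
  · apply Laur.zero_of_zero (Laur.eval₂ (σ.comp (algebraMap (𝓞 K) K)) w hwL (F i))
    intro m
    have h2 : ((2 : ℂ) ^ m) = τ ((2 : M) ^ m) := by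
      rw [map_pow, map_ofNat]
    rw [h2, hw' _ (pow_ne_zero _ two_ne_zero), ← hτe, hvF _ _ (pow_ne_zero _ two_ne_zero),
      map_zero]
  · rw [hw1, hw2] at heq
    exact hτi (congrFun heq j1)

/-- **Laurent curves through integral points which are quotients of sums of units** -/
theorem quotient_laurent {K : Type} [Field K] [NumberField K] (σ : K →+* ℂ)
    (F : ι → MvPolynomial (Fin n) (𝓞 K)) (L : Type) [Field L] [NumberField L] [Algebra K L]
    (τ : L →+* ℂ) (hτ : τ.comp (algebraMap K L) = σ) (S : Set (HeightOneSpectrum (𝓞 L)))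
    (hS : S.Finite) (m : ℕ) :
    {x ∈ intPoints F L S | (∀ j, x j ∈ UnitQuotients L S m) ∧
      ¬ OnLaurent σ F fun j => τ (x j)}.Finite := by
  classical
  by_contra hinf
  let x : ℕ → Fin n → L := fun t => (Set.Infinite.natEmbedding _ hinf t : Fin n → L)
  have hx : ∀ t, x t ∈ {x ∈ intPoints F L S | (∀ j, x j ∈ UnitQuotients L S m) ∧
      ¬ OnLaurent σ F fun j => τ (x j)} := fun t => (Set.Infinite.natEmbedding _ hinf t).2
  have hxinj : Function.Injective x := fun s t hst =>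
    (Set.Infinite.natEmbedding _ hinf).injective (Subtype.ext hst)
  obtain ⟨M, _, _, _, hgal, hi⟩ := exists_big L
  obtain ⟨S', hS', hSS'⟩ := ext_int L M S hS
  obtain ⟨D, hD⟩ := exists_PD hi S' hS'
  have hT : ∀ z : L, z ∈ S.integer L → D.TInt (algebraMap L M z) := by
    intro z hz w hw
    have h1 : algebraMap L M z ∈ S'.integer M := hSS' _ hz
    rw [mem_integer_iff] at h1
    refine h1 w fun hwS => ?_
    obtain ⟨v, hv⟩ := hD w hwS
    exact hw v hv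
  -- embeddings
  obtain ⟨τ', hτ'⟩ : ∃ τ' : M →+* ℂ, τ'.comp (algebraMap L M) = τ := by
    let : Algebra L ℂ := τ.toAlgebra
    have halg : Algebra.IsAlgebraic L M := by
      have := NumberField.to_finiteDimensional (K := M)
      have : IsScalarTower ℚ L M := by infer_instance
      have : FiniteDimensional L M := FiniteDimensional.right ℚ L M
      infer_instance
    let τ' : M →ₐ[L] ℂ := IsAlgClosed.lift
    exact ⟨(τ' : M →+* ℂ), RingHom.ext fun c => τ'.commutes c⟩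
  let ψ : K →+* M := (algebraMap L M).comp (algebraMap K L)
  let c0 : 𝓞 K →+* M := ψ.comp (algebraMap (𝓞 K) K)
  have hτc0 : τ'.comp c0 = σ.comp (algebraMap (𝓞 K) K) := by
    rw [← hτ, ← hτ']
    rfl
  let FM : ι → MvPolynomial (Fin n) M := fun l => map c0 (F l)
  have hevM : ∀ (z : Fin n → M) (P : MvPolynomial (Fin n) (𝓞 K)), eval z (map c0 P) = eval₂ c0 z P :=
    fun z P => by rw [eval_map]
  -- the points over `M`
  let X : ℕ → Fin n → M := fun t i => algebraMap L M (x t i)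
  have hevL : ∀ t (P : MvPolynomial (Fin n) (𝓞 K)), eval₂ c0 (X t) P =
      algebraMap L M (eval₂ ((algebraMap K L).comp (algebraMap (𝓞 K) K)) (x t) P) := by
    intro t P
    have h1 := MvPolynomial.hom_eval₂ P ((algebraMap K L).comp (algebraMap (𝓞 K) K))
      (algebraMap L M) (x t)
    rw [h1]
    rfl
  have hXF : ∀ t l, eval₂ c0 (X t) (F l) = 0 := fun t l => by
    rw [hevL, (hx t).1.2 l, map_zero]
  -- the representations
  have hrep : ∀ t j, ∃ a b : Fin m → L, (∀ i, a i = 0 ∨ ∃ u ∈ S.unit L, (u : L) = a i) ∧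
      (∀ i, b i = 0 ∨ ∃ u ∈ S.unit L, (u : L) = b i) ∧ ∑ i, b i ≠ 0 ∧
      (∑ i, b i) * x t j = ∑ i, a i := by
    intro t j
    obtain ⟨A, ⟨a, ha, rfl⟩, B, ⟨b, hb, rfl⟩, hB0, h1⟩ := (hx t).2.1 j
    exact ⟨a, b, ha, hb, hB0, by rw [h1, mul_div_cancel₀ _ hB0]⟩
  choose a b ha hb hb0 hab using hrep
  have huz : ∀ z : L, (z = 0 ∨ ∃ u ∈ S.unit L, (u : L) = z) →
      algebraMap L M z = 0 ∨ (algebraMap L M z ≠ 0 ∧ D.TInt (algebraMap L M z) ∧
        D.TInt (algebraMap L M z)⁻¹) := by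
    rintro z (rfl | ⟨u, hu, rfl⟩)
    · exact Or.inl (map_zero _)
    · right
      obtain ⟨h1, h2⟩ := unit_int hu
      refine ⟨(map_ne_zero _).2 (Units.ne_zero u), hT _ h1, ?_⟩
      rw [← map_inv₀]
      exact hT _ h2
  -- germs
  obtain ⟨𝒰, h𝒰⟩ : ∃ 𝒰 : Ultrafilter ℕ, 𝒰 = Filter.hyperfilter ℕ := ⟨_, rfl⟩
  let y : Fin n → BA M 𝒰 := fun i => gA 𝒰 fun t => X t i
  have hyP : ∀ P : MvPolynomial (Fin n) M, ∀ᶠ t in (𝒰 : Filter ℕ),
      rep (K := M) (𝒰 := 𝒰) (aeval y P) t = eval (X t) P := fun P => aeval_gA 𝒰 X P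
  have hyF : ∀ l, aeval y (FM l) = 0 := by
    intro l
    apply zero_of_rep 𝒰
    filter_upwards [hyP (FM l)] with t ht
    rw [ht, hevM]
    exact hXF t l
  have hyT : ∀ i, y i ∈ TIR D 𝒰 := fun i =>
    gA_mem_TIR D 𝒰 _ (Filter.Eventually.of_forall fun t => hT _ ((hx t).1.1 i))
  have hync : ∃ i, ∀ c : M, y i ≠ algebraMap M (BA M 𝒰) c := by
    by_contra hcon
    push Not at hcon
    choose c hc using hcon
    have h1 : ∀ᶠ t in (𝒰 : Filter ℕ), ∀ i, X t i = c i := by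
      refine (Filter.eventually_all).2 fun i => ?_
      have h2 : ∀ᶠ t in (𝒰 : Filter ℕ), rep (K := M) (𝒰 := 𝒰) (algebraMap M (BA M 𝒰) (c i)) t = c i :=
        Pool.Agent.Y742.AR.rep_cg (K := M) (𝒰 := 𝒰) (c i)
      filter_upwards [h2, rep_gA 𝒰 fun t => X t i] with t h3 h4
      rw [← h4, ← h3, ← hc i]
    have h2 : Set.Infinite {t | ∀ i, X t i = c i} := by
      intro hfin
      exact (Filter.notMem_hyperfilter_of_finite hfin) (h𝒰 ▸ h1)
    obtain ⟨s, hs, t, ht, hst⟩ := h2.nontrivial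
    refine hst (hxinj (funext fun i => ?_))
    refine (algebraMap L M).injective ?_
    have h3 : X s i = c i := hs i
    have h4 : X t i = c i := ht i
    exact h3.trans h4.symm
  have hsum : ∀ (f : ℕ → Fin m → L), gA 𝒰 (fun t => algebraMap L M (∑ i, f t i)) =
      ∑ i, gA 𝒰 (fun t => algebraMap L M (f t i)) := by
    intro f
    rw [← gA_sum]
    congr 1
    funext t
    rw [map_sum]
  obtain ⟨r, hR⟩ := ratIn_of_sums D 𝒰 (m := m) y
    (fun j i => gA 𝒰 fun t => algebraMap L M (a t j i))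
    (fun j i => gA 𝒰 fun t => algebraMap L M (b t j i))
    (fun j i => unit_or_zero D 𝒰 _ fun t => huz _ (ha t j i))
    (fun j i => unit_or_zero D 𝒰 _ fun t => huz _ (hb t j i))
    (fun j => by
      rw [← hsum (fun t i => b t j i)]
      intro h0
      obtain ⟨t, ht⟩ := ((gA_zero_iff 𝒰 _).1 h0).exists
      exact hb0 t j ((map_eq_zero_iff _ (algebraMap L M).injective).1 ht))
    (fun j => by
      rw [← hsum (fun t i => b t j i), ← hsum (fun t i => a t j i), ← gA_mul]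
      congr 1
      funext t
      rw [← hab t j, map_mul])
  have h2 : ∀ᶠ t in (𝒰 : Filter ℕ), CurveAt (rpA M 𝒰) FM y t :=
    curve_of_rat D 𝒰 y hyT hR hync FM hyF
  have h3 : ∀ᶠ t in (𝒰 : Filter ℕ), ∀ i, rep (K := M) (𝒰 := 𝒰) (y i) t = X t i :=
    (Filter.eventually_all).2 fun i => rep_gA 𝒰 fun t => X t i
  have h23 : ∀ᶠ t in (𝒰 : Filter ℕ), CurveAt (rpA M 𝒰) FM y t ∧
      ∀ i, rep (K := M) (𝒰 := 𝒰) (y i) t = X t i := h2.and h3
  obtain ⟨t, ⟨v, g1, g2, g3, g4⟩, g5⟩ :=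
    (@Filter.Eventually.exists ℕ _ (𝒰 : Filter ℕ) 𝒰.neBot h23)
  have g6 : v 1 = X t := by
    rw [g3]
    exact funext g5
  apply (hx t).2.2
  have g7 := onLaurent_of σ F c0 τ' hτc0 v g1 (fun i s hs => by
    have h5 := g2 i s hs
    simp only [FM] at h5
    rw [hevM] at h5
    exact h5) g4
  have g8 : (fun j => τ' (v 1 j)) = fun j => τ (x t j) := by
    funext j
    rw [g6, ← hτ']
    rfl
  rwa [g8] at g7

/-- the restricted condition (ii) from the condition on Laurent curves -/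
theorem quotient_of_gm {K : Type} [Field K] [NumberField K] {κ : Type} (σ : K →+* ℂ)
    (F : ι → MvPolynomial (Fin n) (𝓞 K)) (G : κ → MvPolynomial (Fin n) (𝓞 K))
    (h : GmCurvesIn σ F G) : QuotientFinite F G := by
  intro L _ _ _ S hS m
  obtain ⟨τ, hτ⟩ : ∃ τ : L →+* ℂ, τ.comp (algebraMap K L) = σ := by
    let : Algebra K ℂ := σ.toAlgebra
    have halg : Algebra.IsAlgebraic K L := by
      have := NumberField.to_finiteDimensional (K := L)
      have : IsScalarTower ℚ K L := by infer_instance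
      have : FiniteDimensional K L := FiniteDimensional.right ℚ K L
      infer_instance
    let τ' : L →ₐ[K] ℂ := IsAlgClosed.lift
    exact ⟨(τ' : L →+* ℂ), RingHom.ext fun c => τ'.commutes c⟩
  refine (quotient_laurent σ F L τ hτ S hS m).subset ?_
  rintro x ⟨⟨hx1, hx2⟩, hx3⟩
  refine ⟨hx1, hx2, ?_⟩
  rintro ⟨v, h1, h2, h3, h4⟩
  apply hx3
  refine ⟨hx1.1, fun l => ?_⟩
  have h5 := h v h1 h2 ⟨2, 1, two_ne_zero, one_ne_zero, h4⟩ l 1 one_ne_zero
  rw [h3] at h5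
  have h6 := MvPolynomial.hom_eval₂ (G l) ((algebraMap K L).comp (algebraMap (𝓞 K) K)) τ x
  rw [← RingHom.comp_assoc, hτ] at h6
  have h7 : eval₂ (σ.comp (algebraMap (𝓞 K) K)) (fun i => τ (x i)) (G l) = 0 := h5
  rw [h7] at h6
  exact (map_eq_zero_iff τ τ.injective).1 h6

end Pool.Agent.H21bl.QS
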