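import Mathlib
import Pool.Agent.H21bl.QS.Pts

/-!
Laurent curves give infinitely many integral points which are sums of boundedly many units.
-/

set_option autoImplicit false
set_option linter.unusedSectionVars false

namespace Pool.Agent.H21bl.QS

open Filter Topology MvPolynomial NumberField IsDedekindDomain
open Pool.Agent.H159R3.Exp (Laur FinitelyManyIntegral intPoints ExpCurvesIn)
open Pool.Agent.W235.RM
open scoped NumberField

variable {L : Type} [Field L] [NumberField L]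

theorem unit_of_support {S : Set (HeightOneSpectrum (𝓞 L))} (c : L) (hc : c ≠ 0)
    (h1 : HeightOneSpectrum.Support (𝓞 L) c ⊆ S) (h2 : HeightOneSpectrum.Support (𝓞 L) c⁻¹ ⊆ S) :
    Units.mk0 c hc ∈ S.unit L := by
  intro v hv
  have h4 : v.valuation L c ≤ 1 := by
    by_contra hcon
    exact hv (h1 (not_le.mp hcon))
  have h5 : v.valuation L c⁻¹ ≤ 1 := by
    by_contra hcon
    exact hv (h2 (not_le.mp hcon))
  rw [map_inv₀] at h5
  have h6 : v.valuation L c ≠ 0 := (Valuation.ne_zero_iff _).2 hc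
  apply le_antisymm h4
  have h7 := mul_le_mul_right h5 (v.valuation L c)
  rw [mul_inv_cancel₀ h6, mul_one] at h7
  exact h7

/-- finitely many elements are units for a finite set of primes -/
theorem exists_units {I : Type} [Finite I] (c : I → L) (S : Set (HeightOneSpectrum (𝓞 L)))
    (hS : S.Finite) : ∃ S' : Set (HeightOneSpectrum (𝓞 L)), S'.Finite ∧ S ⊆ S' ∧
      ∀ i, c i ≠ 0 → ∃ u ∈ S'.unit L, (u : L) = c i := by
  let S' : Set (HeightOneSpectrum (𝓞 L)) := S ∪
    ((⋃ i, HeightOneSpectrum.Support (𝓞 L) (c i)) ∪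
      ⋃ i, HeightOneSpectrum.Support (𝓞 L) (c i)⁻¹)
  refine ⟨S', ?_, fun v hv => Or.inl hv, fun i hi => ?_⟩
  · exact hS.union ((Set.finite_iUnion fun i => HeightOneSpectrum.Support.finite _ _).union
      (Set.finite_iUnion fun i => HeightOneSpectrum.Support.finite _ _))
  · refine ⟨Units.mk0 (c i) hi, unit_of_support _ _ ?_ ?_, rfl⟩
    · exact fun v hv => Or.inr (Or.inl (Set.mem_iUnion.2 ⟨i, hv⟩))
    · exact fun v hv => Or.inr (Or.inr (Set.mem_iUnion.2 ⟨i, hv⟩))

theorem not_quotient_of_hasLaurent {K : Type} [Field K] {ι κ : Type} {n : ℕ}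
    (F : ι → MvPolynomial (Fin n) (𝓞 K)) (G : κ → MvPolynomial (Fin n) (𝓞 K))
    (h : HasLaurent F G) : ¬ QuotientFinite F G := by
  classical
  obtain ⟨L, _, _, _, v, hv, hvF, hG, hne⟩ := h
  obtain ⟨S, hS, hint⟩ := Pool.Agent.H159R3.Exp.integral_pts v hv
  obtain ⟨e, Q, hQ⟩ := Laur.common v hv
  let N : ℕ := Finset.univ.sup (fun j => (Q j).natDegree) + 1
  have hN : ∀ j, (Q j).natDegree < N := fun j =>
    Nat.lt_succ_of_le (Finset.le_sup (f := fun j => (Q j).natDegree) (Finset.mem_univ j))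
  obtain ⟨S', hS', hSS', hu⟩ := exists_units
    (Sum.elim (fun x : Fin n × Fin N => (Q x.1).coeff x.2) (fun _ : Unit => (2 : L))) S hS
  obtain ⟨u2, hu2, hu2e⟩ := hu (Sum.inr ()) two_ne_zero
  have hu2' : (u2 : L) = 2 := hu2e
  intro hcon
  have h1 := hcon L S' hS' N
  have h2 := infinite_points F G L v hv hvF hG hne 2 le_rfl
  apply h2
  refine h1.subset ?_
  rintro x ⟨_, ⟨l, hl⟩, k, rfl⟩
  have h20 : (2 : L) ^ k ≠ 0 := pow_ne_zero _ two_ne_zero
  have hcast : (((2 : ℕ) : L)) = 2 := by norm_num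
  rw [hcast] at hl ⊢
  refine ⟨⟨⟨fun j => ?_, fun i => hvF i _ h20⟩, fun j => ?_⟩, fun hmem => hl (hmem.2 l)⟩
  · exact fun w hw => hint k j w fun hwS => hw (hSS' hwS)
  · refine ⟨_, ⟨fun l : Fin N => (Q j).coeff l * (2 ^ k) ^ (l : ℕ) / (2 ^ k) ^ e, fun l => ?_,
      rfl⟩, 1, ⟨fun l : Fin N => if (l : ℕ) = 0 then 1 else 0, fun l => ?_, ?_⟩, one_ne_zero, ?_⟩
    · by_cases h0 : (Q j).coeff l = 0
      · left
        beta_reduce
        rw [h0, zero_mul, zero_div]
      · right
        obtain ⟨u, hu', hue⟩ := hu (Sum.inl (j, l)) h0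
        have hue' : (u : L) = (Q j).coeff l := hue
        refine ⟨u * (u2 ^ k) ^ (l : ℕ) / (u2 ^ k) ^ e, ?_, ?_⟩
        · exact Subgroup.div_mem _ (Subgroup.mul_mem _ hu' (Subgroup.pow_mem _
            (Subgroup.pow_mem _ hu2 _) _)) (Subgroup.pow_mem _ (Subgroup.pow_mem _ hu2 _) _)
        · simp only [Units.val_div_eq_div_val, Units.val_mul, Units.val_pow_eq_pow_val, hu2', hue']
    · by_cases h0 : (l : ℕ) = 0
      · right
        refine ⟨1, Subgroup.one_mem _, ?_⟩
        beta_reduce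
        rw [if_pos h0, Units.val_one]
      · left
        beta_reduce
        rw [if_neg h0]
    · rw [Finset.sum_eq_single (⟨0, Nat.succ_pos _⟩ : Fin N)]
      · simp
      · intro l _ hl0
        rw [if_neg]
        intro h0
        exact hl0 (Fin.ext h0)
      · intro h0
        exact absurd (Finset.mem_univ _) h0
    · rw [div_one, hQ _ h20, Polynomial.eval_eq_sum_range' (hN j), Finset.sum_range,
        Finset.sum_div]

theorem gm_of_quotient {K : Type} [Field K] [NumberField K] {ι κ : Type} {n : ℕ} (σ : K →+* ℂ)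
    (F : ι → MvPolynomial (Fin n) (𝓞 K)) (G : κ → MvPolynomial (Fin n) (𝓞 K))
    (h : QuotientFinite F G) : GmCurvesIn σ F G := by
  by_contra h2
  exact not_quotient_of_hasLaurent F G
    (hasLaurent_of_exp F G σ (not_exp_of_not_gm σ F G h2)) h

theorem gm_iff_quotient {K : Type} [Field K] [NumberField K] {ι κ : Type} {n : ℕ} (σ : K →+* ℂ)
    (F : ι → MvPolynomial (Fin n) (𝓞 K)) (G : κ → MvPolynomial (Fin n) (𝓞 K)) :
    GmCurvesIn σ F G ↔ QuotientFinite F G :=
  ⟨quotient_of_gm σ F G, gm_of_quotient σ F G⟩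

end Pool.Agent.H21bl.QS
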